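import Pool.Agent.Helper36.RN.Goals

/-!
# Project RFn (MP_c98eff_gt), existence part 1, packet CDA: rules for curves
-/

namespace Pool.Agent.Helper13.RN

open Set Filter Topology MeasureTheory Pool.Agent.Helper36.RN

variable {n : ℕ} {τ : ℝ}

theorem sn_zero' (m : ℕ) : sn m (0 : XS n) = 0 := by
  have h := sn_smul m (0 : ℝ) (0 : XS n)
  rw [zero_smul] at h
  simpa using h

/-- product estimate at every order, through a higher order -/
theorem prod_est (hP : R_PRSA) (n m : ℕ) : ∃ M : ℕ, ∃ C : ℝ, m ≤ M ∧ 0 ≤ C ∧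
    ∀ u v : XS n, sn m (u * v) ≤ C * (sn M u * sn M v) := by
  obtain ⟨C, hC⟩ := (hP n).2.2.2 (max m (2 * n + 2)) (le_max_right _ _)
  refine ⟨max m (2 * n + 2), |C|, le_max_left _ _, abs_nonneg C, fun u v => ?_⟩
  refine (sn_mono (le_max_left m (2 * n + 2)) _).trans ((hC u v).trans ?_)
  exact mul_le_mul_of_nonneg_right (le_abs_self C) (mul_nonneg (sn_nonneg _ _) (sn_nonneg _ _))

theorem cc_bdd {y : ℝ → XS n} (h : CC τ y) (m : ℕ) : ∃ L, ∀ t ∈ Icc 0 τ, sn m (y t) ≤ L := by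
  refine (isCompact_Icc (a := (0 : ℝ)) (b := τ)).induction_on
    (p := fun s => ∃ L, ∀ t ∈ s, sn m (y t) ≤ L) ⟨0, by simp⟩ ?_ ?_ ?_
  · rintro s t hst ⟨L, hL⟩
    exact ⟨L, fun x hx => hL x (hst hx)⟩
  · rintro s t ⟨L, hL⟩ ⟨L', hL'⟩
    refine ⟨max L L', fun x hx => ?_⟩
    rcases hx with hx | hx
    · exact (hL x hx).trans (le_max_left _ _)
    · exact (hL' x hx).trans (le_max_right _ _)
  · intro t ht
    obtain ⟨η, hη, hs⟩ := h m t ht 1 one_pos
    refine ⟨Icc 0 τ ∩ Metric.closedBall t η,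
      inter_mem self_mem_nhdsWithin (mem_nhdsWithin_of_mem_nhds (Metric.closedBall_mem_nhds t hη)),
      2 * (1 + sn m (y t)), fun s hs' => ?_⟩
    have h1 := hs s hs'.1 (by simpa [Real.dist_eq] using hs'.2)
    have h2 := sn_add_le m (y s - y t) (y t)
    rw [sub_add_cancel] at h2
    linarith

theorem cc_pos_bdd {y : ℝ → XS n} (h : CC τ y) (m : ℕ) :
    ∃ L, 0 < L ∧ ∀ t ∈ Icc 0 τ, sn m (y t) ≤ L := by
  obtain ⟨L, hL⟩ := cc_bdd h m
  exact ⟨max L 1, lt_of_lt_of_le one_pos (le_max_right _ _),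
    fun t ht => (hL t ht).trans (le_max_left _ _)⟩

theorem cc_const (f : XS n) : CC τ (fun _ => f) := by
  intro m t ht δ hδ
  refine ⟨1, one_pos, fun s hs _ => ?_⟩
  rw [sub_self, sn_zero']
  exact hδ.le

theorem cc_add {y z : ℝ → XS n} (hy : CC τ y) (hz : CC τ z) : CC τ (fun t => y t + z t) := by
  intro m t ht δ hδ
  obtain ⟨η, hη, h1⟩ := hy m t ht (δ / 4) (by positivity)
  obtain ⟨η', hη', h2⟩ := hz m t ht (δ / 4) (by positivity)
  refine ⟨min η η', lt_min hη hη', fun s hs hst => ?_⟩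
  have e : y s + z s - (y t + z t) = (y s - y t) + (z s - z t) := by abel
  rw [e]
  have := sn_add_le m (y s - y t) (z s - z t)
  have := h1 s hs (hst.trans (min_le_left _ _))
  have := h2 s hs (hst.trans (min_le_right _ _))
  linarith

theorem cc_neg {y : ℝ → XS n} (hy : CC τ y) : CC τ (fun t => - y t) := by
  intro m t ht δ hδ
  obtain ⟨η, hη, h1⟩ := hy m t ht δ hδ
  refine ⟨η, hη, fun s hs hst => ?_⟩
  have e : - y s - - y t = - (y s - y t) := by abel
  rw [e, sn_neg]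
  exact h1 s hs hst

theorem cc_sub {y z : ℝ → XS n} (hy : CC τ y) (hz : CC τ z) : CC τ (fun t => y t - z t) := by
  have := cc_add hy (cc_neg hz)
  simpa only [← sub_eq_add_neg] using this

theorem cc_mul (hP : R_PRSA) {y z : ℝ → XS n} (hy : CC τ y) (hz : CC τ z) :
    CC τ (fun t => y t * z t) := by
  intro m t ht δ hδ
  obtain ⟨M, C, hM, hC, hCM⟩ := prod_est hP n m
  obtain ⟨Ly, hLy0, hLy⟩ := cc_pos_bdd hy M
  obtain ⟨Lz, hLz0, hLz⟩ := cc_pos_bdd hz M
  obtain ⟨η, hη, h1⟩ := hy M t ht (δ / (4 * (C * Lz + 1))) (by positivity)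
  obtain ⟨η', hη', h2⟩ := hz M t ht (δ / (4 * (C * Ly + 1))) (by positivity)
  refine ⟨min η η', lt_min hη hη', fun s hs hst => ?_⟩
  have e : y s * z s - y t * z t = (y s - y t) * z s + y t * (z s - z t) := by ring
  rw [e]
  have k0 := sn_add_le m ((y s - y t) * z s) (y t * (z s - z t))
  have k1 := h1 s hs (hst.trans (min_le_left _ _))
  have k2 := h2 s hs (hst.trans (min_le_right _ _))
  have k3 := hCM (y s - y t) (z s)
  have k4 := hCM (y t) (z s - z t)
  have k5 : C * (sn M (y s - y t) * sn M (z s)) ≤ δ / 4 := by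
    calc C * (sn M (y s - y t) * sn M (z s)) ≤ C * (δ / (4 * (C * Lz + 1)) * Lz) := by
          have := hLz s hs
          have := sn_nonneg M (z s)
          gcongr
      _ = (δ / 4) * (C * Lz / (C * Lz + 1)) := by field_simp
      _ ≤ (δ / 4) * 1 := by
          have : C * Lz / (C * Lz + 1) ≤ 1 := by
            rw [div_le_one (by positivity)]
            linarith
          gcongr
      _ = δ / 4 := mul_one _
  have k6 : C * (sn M (y t) * sn M (z s - z t)) ≤ δ / 4 := by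
    calc C * (sn M (y t) * sn M (z s - z t)) ≤ C * (Ly * (δ / (4 * (C * Ly + 1)))) := by
          have := hLy t ht
          have := sn_nonneg M (y t)
          have := sn_nonneg M (z s - z t)
          gcongr
      _ = (δ / 4) * (C * Ly / (C * Ly + 1)) := by field_simp
      _ ≤ (δ / 4) * 1 := by
          have : C * Ly / (C * Ly + 1) ≤ 1 := by
            rw [div_le_one (by positivity)]
            linarith
          gcongr
      _ = δ / 4 := mul_one _
  linarith

theorem cc_smul (hP : R_PRSA) (c : ℝ) {y : ℝ → XS n} (hy : CC τ y) : CC τ (fun t => c • y t) := by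
  have h := cc_mul hP (cc_const (τ := τ) (algebraMap ℝ (XS n) c)) hy
  simpa only [← Algebra.smul_def] using h

theorem cc_Ld (p : KK n) {y : ℝ → XS n} (hy : CC τ y) : CC τ (fun t => Ld p (y t)) := by
  intro m t ht δ hδ
  obtain ⟨η, hη, h1⟩ := hy (m + 1) t ht δ hδ
  refine ⟨η, hη, fun s hs hst => ?_⟩
  rw [← map_sub]
  exact (sn_Ld m p _).trans (h1 s hs hst)

theorem cc_sum {ι : Type} (s : Finset ι) {y : ι → ℝ → XS n} (h : ∀ i ∈ s, CC τ (y i)) :
    CC τ (fun t => ∑ i ∈ s, y i t) := by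
  classical
  induction s using Finset.induction_on with
  | empty =>
    simp only [Finset.sum_empty]
    exact cc_const 0
  | insert a s ha ih =>
    simp only [Finset.sum_insert ha]
    exact cc_add (h a (Finset.mem_insert_self _ _))
      (ih fun i hi => h i (Finset.mem_insert_of_mem hi))

theorem cc_Ee (hP : R_PRSA) (i : Fin (n + 1)) {y : ℝ → XS n} (hy : CC τ y) :
    CC τ (fun t => Ee i (y t)) := by
  have h : CC τ (fun t => ∑ j, nu j * Ld (j, i) (y t)) :=
    cc_sum Finset.univ fun j _ => cc_mul hP (cc_const (nu j)) (cc_Ld (j, i) hy)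
  simpa only [← Ee_def] using h

theorem cc_congr {y z : ℝ → XS n} (hy : CC τ y) (h : ∀ t ∈ Icc 0 τ, y t = z t) : CC τ z := by
  intro m t ht δ hδ
  obtain ⟨η, hη, h1⟩ := hy m t ht δ hδ
  refine ⟨η, hη, fun s hs hst => ?_⟩
  rw [← h s hs, ← h t ht]
  exact h1 s hs hst

/-! ## Curves with a derivative -/

/-- the condition on the derivative -/
def Der (τ : ℝ) (y y' : ℝ → XS n) : Prop :=
  ∀ m, ∀ t ∈ Icc 0 τ, ∀ δ > 0, ∃ η > 0, ∀ s ∈ Icc 0 τ, |s - t| ≤ η →
    sn m (y s - y t - (s - t) • y' t) ≤ δ * (s - t) ^ 2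

theorem cd_cc {y y' : ℝ → XS n} (h : CD τ y y') : CC τ y ∧ CC τ y' := by
  refine ⟨fun m t ht δ hδ => ?_, h.cont'⟩
  obtain ⟨η, hη, h1⟩ := h.der m t ht 1 one_pos
  set A := sn m (y' t) with hA
  have hA0 : 0 ≤ A := sn_nonneg _ _
  refine ⟨min η (min 1 (δ / (2 * (1 + A)))), lt_min hη (lt_min one_pos (by positivity)),
    fun s hs hst => ?_⟩
  have k1 := h1 s hs (hst.trans (min_le_left _ _))
  have k2 := hst.trans ((min_le_right _ _).trans (min_le_left _ _))
  have k3 := hst.trans ((min_le_right _ _).trans (min_le_right _ _))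
  have k4 := sn_add_le m (y s - y t - (s - t) • y' t) ((s - t) • y' t)
  rw [sub_add_cancel, sn_smul, ← hA] at k4
  have k5 : (s - t) ^ 2 ≤ δ / (2 * (1 + A)) := by
    rw [← sq_abs]
    calc |s - t| ^ 2 = |s - t| * |s - t| := sq _
      _ ≤ 1 * (δ / (2 * (1 + A))) := by gcongr
      _ = _ := one_mul _
  calc sn m (y s - y t) ≤ 2 * ((1 + A) * (s - t) ^ 2) := by linarith
    _ ≤ 2 * ((1 + A) * (δ / (2 * (1 + A)))) := by gcongr
    _ = δ := by field_simp

theorem cd_mk {y y' : ℝ → XS n} (h : CC τ y) (h' : CC τ y') (hd : Der τ y y') : CD τ y y' :=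
  ⟨cc_bdd h, h', hd⟩

theorem cd_const (f : XS n) : CD τ (fun _ => f) (fun _ => 0) :=
  cd_mk (cc_const f) (cc_const 0) fun m t ht δ hδ => ⟨1, one_pos, fun s hs _ => by
    rw [sub_self, smul_zero, sub_zero, sn_zero']
    positivity⟩

theorem cd_add {y y' z z' : ℝ → XS n} (hy : CD τ y y') (hz : CD τ z z') :
    CD τ (fun t => y t + z t) (fun t => y' t + z' t) := by
  refine cd_mk (cc_add (cd_cc hy).1 (cd_cc hz).1) (cc_add (cd_cc hy).2 (cd_cc hz).2) ?_
  intro m t ht δ hδ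
  obtain ⟨η, hη, h1⟩ := hy.der m t ht (δ / 4) (by positivity)
  obtain ⟨η', hη', h2⟩ := hz.der m t ht (δ / 4) (by positivity)
  refine ⟨min η η', lt_min hη hη', fun s hs hst => ?_⟩
  have e : y s + z s - (y t + z t) - (s - t) • (y' t + z' t) =
      (y s - y t - (s - t) • y' t) + (z s - z t - (s - t) • z' t) := by
    rw [smul_add]
    abel
  rw [e]
  have := sn_add_le m (y s - y t - (s - t) • y' t) (z s - z t - (s - t) • z' t)
  have := h1 s hs (hst.trans (min_le_left _ _))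
  have := h2 s hs (hst.trans (min_le_right _ _))
  linarith

theorem cd_neg {y y' : ℝ → XS n} (hy : CD τ y y') : CD τ (fun t => - y t) (fun t => - y' t) := by
  refine cd_mk (cc_neg (cd_cc hy).1) (cc_neg (cd_cc hy).2) ?_
  intro m t ht δ hδ
  obtain ⟨η, hη, h1⟩ := hy.der m t ht δ hδ
  refine ⟨η, hη, fun s hs hst => ?_⟩
  have e : - y s - - y t - (s - t) • (- y' t) = - (y s - y t - (s - t) • y' t) := by
    rw [smul_neg]
    abel
  rw [e, sn_neg]
  exact h1 s hs hst

theorem cd_sub {y y' z z' : ℝ → XS n} (hy : CD τ y y') (hz : CD τ z z') :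
    CD τ (fun t => y t - z t) (fun t => y' t - z' t) := by
  have := cd_add hy (cd_neg hz)
  simpa only [← sub_eq_add_neg] using this

theorem cd_mul (hP : R_PRSA) {y y' z z' : ℝ → XS n} (hy : CD τ y y') (hz : CD τ z z') :
    CD τ (fun t => y t * z t) (fun t => y' t * z t + y t * z' t) := by
  obtain ⟨cy, cy'⟩ := cd_cc hy
  obtain ⟨cz, cz'⟩ := cd_cc hz
  refine cd_mk (cc_mul hP cy cz) (cc_add (cc_mul hP cy' cz) (cc_mul hP cy cz')) ?_
  intro m t ht δ hδ
  obtain ⟨M, C, hM, hC, hCM⟩ := prod_est hP n m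
  obtain ⟨Ly, hLy0, hLy⟩ := cc_pos_bdd cy M
  obtain ⟨Lz, hLz0, hLz⟩ := cc_pos_bdd cz M
  obtain ⟨Ly', hLy'0, hLy'⟩ := cc_pos_bdd cy' M
  obtain ⟨η1, hη1, h1⟩ := hy.der M t ht (δ / (12 * (C * Lz + 1))) (by positivity)
  obtain ⟨η2, hη2, h2⟩ := hz.der M t ht (δ / (12 * (C * Ly + 1))) (by positivity)
  obtain ⟨η3, hη3, h3⟩ := cz M t ht (δ / (12 * (C * Ly' + 1))) (by positivity)
  refine ⟨min η1 (min η2 η3), lt_min hη1 (lt_min hη2 hη3), fun s hs hst => ?_⟩
  have g1 := h1 s hs (hst.trans (min_le_left _ _))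
  have g2 := h2 s hs (hst.trans ((min_le_right _ _).trans (min_le_left _ _)))
  have g3 := h3 s hs (hst.trans ((min_le_right _ _).trans (min_le_right _ _)))
  have e : y s * z s - y t * z t - (s - t) • (y' t * z t + y t * z' t) =
      ((y s - y t - (s - t) • y' t) * z s + y t * (z s - z t - (s - t) • z' t)) +
        (s - t) • (y' t * (z s - z t)) := by
    simp only [Algebra.smul_def]
    ring
  rw [e]
  set U := y s - y t - (s - t) • y' t with hU
  set V := z s - z t - (s - t) • z' t with hV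
  have k0 := sn_add_le m (U * z s + y t * V) ((s - t) • (y' t * (z s - z t)))
  have k1 := sn_add_le m (U * z s) (y t * V)
  rw [sn_smul] at k0
  have hst0 : 0 ≤ (s - t) ^ 2 := sq_nonneg _
  have q : ∀ L : ℝ, 0 < L → C * (δ / (12 * (C * L + 1)) * L) ≤ δ / 12 := by
    intro L hL
    calc C * (δ / (12 * (C * L + 1)) * L) = (δ / 12) * (C * L / (C * L + 1)) := by field_simp
      _ ≤ (δ / 12) * 1 := by
          have : C * L / (C * L + 1) ≤ 1 := by
            rw [div_le_one (by positivity)]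
            linarith
          gcongr
      _ = δ / 12 := mul_one _
  have k2 : sn m (U * z s) ≤ δ / 12 * (s - t) ^ 2 := by
    calc sn m (U * z s) ≤ C * (sn M U * sn M (z s)) := hCM _ _
      _ ≤ C * ((δ / (12 * (C * Lz + 1)) * (s - t) ^ 2) * Lz) := by
          have := hLz s hs
          have := sn_nonneg M (z s)
          gcongr
      _ = C * (δ / (12 * (C * Lz + 1)) * Lz) * (s - t) ^ 2 := by ring
      _ ≤ δ / 12 * (s - t) ^ 2 := mul_le_mul_of_nonneg_right (q Lz hLz0) hst0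
  have k3 : sn m (y t * V) ≤ δ / 12 * (s - t) ^ 2 := by
    calc sn m (y t * V) ≤ C * (sn M (y t) * sn M V) := hCM _ _
      _ ≤ C * (Ly * (δ / (12 * (C * Ly + 1)) * (s - t) ^ 2)) := by
          have := hLy t ht
          have := sn_nonneg M (y t)
          have := sn_nonneg M V
          gcongr
      _ = C * (δ / (12 * (C * Ly + 1)) * Ly) * (s - t) ^ 2 := by ring
      _ ≤ δ / 12 * (s - t) ^ 2 := mul_le_mul_of_nonneg_right (q Ly hLy0) hst0
  have k4 : sn m (y' t * (z s - z t)) ≤ δ / 12 := by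
    calc sn m (y' t * (z s - z t)) ≤ C * (sn M (y' t) * sn M (z s - z t)) := hCM _ _
      _ ≤ C * (Ly' * (δ / (12 * (C * Ly' + 1)))) := by
          have := hLy' t ht
          have := sn_nonneg M (y' t)
          have := sn_nonneg M (z s - z t)
          gcongr
      _ = C * (δ / (12 * (C * Ly' + 1)) * Ly') := by ring
      _ ≤ δ / 12 := q Ly' hLy'0
  have k5 : (s - t) ^ 2 * sn m (y' t * (z s - z t)) ≤ (s - t) ^ 2 * (δ / 12) :=
    mul_le_mul_of_nonneg_left k4 hst0
  nlinarith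

theorem cd_smul (hP : R_PRSA) (c : ℝ) {y y' : ℝ → XS n} (hy : CD τ y y') :
    CD τ (fun t => c • y t) (fun t => c • y' t) := by
  have h := cd_mul hP (cd_const (τ := τ) (algebraMap ℝ (XS n) c)) hy
  simpa only [← Algebra.smul_def, zero_mul, zero_add] using h

theorem cd_Ld (p : KK n) {y y' : ℝ → XS n} (hy : CD τ y y') :
    CD τ (fun t => Ld p (y t)) (fun t => Ld p (y' t)) := by
  refine cd_mk (cc_Ld p (cd_cc hy).1) (cc_Ld p (cd_cc hy).2) ?_
  intro m t ht δ hδ
  obtain ⟨η, hη, h1⟩ := hy.der (m + 1) t ht δ hδ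
  refine ⟨η, hη, fun s hs hst => ?_⟩
  have e : Ld p (y s) - Ld p (y t) - (s - t) • Ld p (y' t) =
      Ld p (y s - y t - (s - t) • y' t) := by
    rw [map_sub, map_sub, Derivation.map_smul]
  rw [e]
  exact (sn_Ld m p _).trans (h1 s hs hst)

theorem cd_sum {ι : Type} (s : Finset ι) {y y' : ι → ℝ → XS n} (h : ∀ i ∈ s, CD τ (y i) (y' i)) :
    CD τ (fun t => ∑ i ∈ s, y i t) (fun t => ∑ i ∈ s, y' i t) := by
  classical
  induction s using Finset.induction_on with
  | empty =>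
    simp only [Finset.sum_empty]
    exact cd_const 0
  | insert a s ha ih =>
    simp only [Finset.sum_insert ha]
    exact cd_add (h a (Finset.mem_insert_self _ _))
      (ih fun i hi => h i (Finset.mem_insert_of_mem hi))

theorem cd_Ee (hP : R_PRSA) (i : Fin (n + 1)) {y y' : ℝ → XS n} (hy : CD τ y y') :
    CD τ (fun t => Ee i (y t)) (fun t => Ee i (y' t)) := by
  have h : CD τ (fun t => ∑ j, nu j * Ld (j, i) (y t))
      (fun t => ∑ j, (0 * Ld (j, i) (y t) + nu j * Ld (j, i) (y' t))) :=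
    cd_sum Finset.univ fun j _ => cd_mul hP (cd_const (nu j)) (cd_Ld (j, i) hy)
  simpa only [zero_mul, zero_add, ← Ee_def] using h

theorem cd_congr' {y y' z' : ℝ → XS n} (hy : CD τ y y') (h : ∀ t ∈ Icc 0 τ, y' t = z' t) :
    CD τ y z' := by
  refine ⟨hy.bdd, cc_congr hy.cont' h, ?_⟩
  intro m t ht δ hδ
  obtain ⟨η, hη, h1⟩ := hy.der m t ht δ hδ
  refine ⟨η, hη, fun s hs hst => ?_⟩
  rw [← h t ht]
  exact h1 s hs hst

theorem cd_congr {y z y' : ℝ → XS n} (hy : CD τ y y') (h : ∀ t ∈ Icc 0 τ, y t = z t) :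
    CD τ z y' := by
  refine ⟨fun m => ?_, hy.cont', ?_⟩
  · obtain ⟨L, hL⟩ := hy.bdd m
    exact ⟨L, fun t ht => by rw [← h t ht]; exact hL t ht⟩
  · intro m t ht δ hδ
    obtain ⟨η, hη, h1⟩ := hy.der m t ht δ hδ
    refine ⟨η, hη, fun s hs hst => ?_⟩
    rw [← h t ht, ← h s hs]
    exact h1 s hs hst

theorem cc_sup (hS : G_SOB) {y : ℝ → XS n} (hy : CC τ y) :
    ∃ K, ∀ t ∈ Icc 0 τ, ∀ x, |(y t).1 x| ≤ K := by
  obtain ⟨C, hC⟩ := hS n
  obtain ⟨L, hL0, hL⟩ := cc_pos_bdd hy (n + 1)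
  refine ⟨|C| * L + 1, fun t ht x => ?_⟩
  have h1 := hC (y t) x
  have h2 := hL t ht
  have h3 : C * sn (n + 1) (y t) ≤ |C| * L := by
    calc C * sn (n + 1) (y t) ≤ |C| * sn (n + 1) (y t) :=
          mul_le_mul_of_nonneg_right (le_abs_self C) (sn_nonneg _ _)
      _ ≤ |C| * L := mul_le_mul_of_nonneg_left h2 (abs_nonneg C)
  have h4 : |(y t).1 x| ^ 2 ≤ |C| * L := by rw [sq_abs]; linarith
  have h5 : 0 ≤ |C| * L := by positivity
  nlinarith [abs_nonneg ((y t).1 x)]

theorem cda : G_CDA := fun hS hP _ _ =>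
  ⟨cd_const, fun _ _ _ _ h h' => cd_add h h', fun _ _ _ _ h h' => cd_sub h h',
    fun _ _ _ _ h h' => cd_mul hP h h', fun _ _ h => cd_neg h, fun c _ _ h => cd_smul hP c h,
    fun p _ _ h => cd_Ld p h, fun i _ _ h => cd_Ee hP i h, fun _ s _ _ h => cd_sum s h,
    fun _ _ _ h h' => cd_congr' h h', fun _ _ _ h h' => cd_congr h h', fun _ _ h => cd_cc h,
    cc_const, fun _ _ h h' => cc_add h h', fun _ _ h h' => cc_sub h h',
    fun _ _ h h' => cc_mul hP h h', fun _ h => cc_neg h, fun c _ h => cc_smul hP c h,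
    fun p _ h => cc_Ld p h, fun i _ h => cc_Ee hP i h, fun _ s _ h => cc_sum s h,
    fun _ _ h h' => cc_congr h h', fun _ h m => cc_bdd h m, fun _ h => cc_sup hS h⟩

end Pool.Agent.Helper13.RN
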