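import Pool.Agent.Helper64.RN.Goals2
import Mathlib

/-!
# Project RN, part 2 (MP_d01c92_ag): packet DFA

A differential field with constants `K` and large transcendence degree: the field of Laurent series with
the Euler derivation `s d/ds`. The algebraically independent elements are power series over `ℚ`
(which exist because `ℚ⟦X⟧` is uncountable).
-/

set_option autoImplicit false

universe u

namespace Pool.Agent.Helper13.RN.DFA

open Cardinal

theorem uncountable_powerSeries : ¬ Countable (PowerSeries ℚ) := by
  classical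
  intro h
  have hinj : Function.Injective (fun S : Set ℕ => PowerSeries.mk (fun n => if n ∈ S then (1 : ℚ) else 0)) := by
    intro S T hST
    ext n
    have h1 := congrArg (PowerSeries.coeff n) hST
    simp only [PowerSeries.coeff_mk] at h1
    by_cases hS : n ∈ S <;> by_cases hT : n ∈ T <;> simp_all
  have h2 : Countable (Set ℕ) := hinj.countable
  have h3 : #(Set ℕ) ≤ ℵ₀ := Cardinal.mk_le_aleph0
  rw [Cardinal.mk_set, Cardinal.mk_nat] at h3
  exact absurd (Cardinal.cantor ℵ₀) (not_lt.2 h3)

/-- `d` algebraically independent power series over `ℚ` -/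
theorem exists_indep (d : ℕ) : ∃ y : Fin d → PowerSeries ℚ, AlgebraicIndependent ℚ y := by
  obtain ⟨s, hs⟩ := exists_isTranscendenceBasis ℚ (PowerSeries ℚ)
  have hinf : Infinite s := by
    by_contra hfin
    rw [not_infinite_iff_finite] at hfin
    have halg := hs.isAlgebraic
    have h1 := Algebra.IsAlgebraic.cardinalMk_le_max
      (Algebra.adjoin ℚ (Set.range ((↑) : s → PowerSeries ℚ))) (PowerSeries ℚ)
    have h2 : #(Algebra.adjoin ℚ (Set.range ((↑) : s → PowerSeries ℚ))) ≤ ℵ₀ := by
      rw [← Cardinal.mk_congr hs.1.aevalEquiv.toEquiv]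
      refine (MvPolynomial.cardinalMk_le_max (σ := s) (R := ℚ)).trans ?_
      rw [sup_le_iff, sup_le_iff]
      exact ⟨⟨Cardinal.mk_le_aleph0, Cardinal.mk_le_aleph0⟩, le_rfl⟩
    exact uncountable_powerSeries (Cardinal.mk_le_aleph0_iff.1 (h1.trans (max_le h2 le_rfl)))
  exact ⟨_, hs.1.comp (fun i : Fin d => Infinite.natEmbedding s i)
    (fun i j h => Fin.ext ((Infinite.natEmbedding s).injective h))⟩

/-- extension of scalars -/
theorem indep_map (K : Type u) [Field K] [CharZero K] {d : ℕ} {y : Fin d → PowerSeries ℚ}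
    (hy : AlgebraicIndependent ℚ y) :
    AlgebraicIndependent K (fun i => PowerSeries.map (algebraMap ℚ K) (y i)) := by
  classical
  rw [algebraicIndependent_iff] at hy ⊢
  intro p hp
  by_contra hne
  obtain ⟨m, hm⟩ := MvPolynomial.ne_zero_iff.1 hne
  obtain ⟨lam, hlam⟩ : ∃ lam : Module.Dual ℚ K, lam (p.coeff m) ≠ 0 := by
    by_contra hc
    push Not at hc
    exact hm ((Module.forall_dual_apply_eq_zero_iff ℚ _).1 hc)
  have key : MvPolynomial.aeval y
      (∑ m ∈ p.support, MvPolynomial.monomial m (lam (p.coeff m))) = 0 := by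
    ext n
    have h1 := congrArg (PowerSeries.coeff n) hp
    rw [MvPolynomial.as_sum p, map_sum, map_sum, map_zero] at h1
    rw [map_sum, map_sum, map_zero, ← map_zero lam, ← h1, map_sum]
    refine Finset.sum_congr rfl fun m _ => ?_
    rw [MvPolynomial.aeval_monomial, MvPolynomial.aeval_monomial]
    have h2 : (m.prod fun i k => PowerSeries.map (algebraMap ℚ K) (y i) ^ k) =
        PowerSeries.map (algebraMap ℚ K) (m.prod fun i k => y i ^ k) := by
      rw [Finsupp.prod, Finsupp.prod, map_prod]
      exact Finset.prod_congr rfl fun i _ => (map_pow _ _ _).symm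
    rw [h2, ← Algebra.smul_def, ← Algebra.smul_def, PowerSeries.coeff_smul, PowerSeries.coeff_smul,
      PowerSeries.coeff_map, smul_eq_mul, smul_eq_mul, mul_comm (p.coeff m), ← Algebra.smul_def,
      map_smul, smul_eq_mul, mul_comm]
  have h3 := congrArg (MvPolynomial.coeff m) (hy _ key)
  rw [MvPolynomial.coeff_sum, MvPolynomial.coeff_zero] at h3
  simp only [MvPolynomial.coeff_monomial] at h3
  rw [Finset.sum_ite_eq' p.support m, if_pos (MvPolynomial.mem_support_iff.2 hm)] at h3
  exact hlam h3

section theta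

attribute [-instance] HahnSeries.powerSeriesAlgebra

variable (K : Type u) [Field K]

/-- `s d/ds` on a series -/
def thf (f : HahnSeries ℤ K) : HahnSeries ℤ K where
  coeff n := (n : K) * f.coeff n
  isPWO_support' := f.isPWO_support.mono fun n hn h0 => hn (by
    show (n : K) * f.coeff n = 0
    rw [h0, mul_zero])

theorem thf_coeff (f : HahnSeries ℤ K) (n : ℤ) : (thf K f).coeff n = (n : K) * f.coeff n := rfl

theorem thf_support (f : HahnSeries ℤ K) : (thf K f).support ⊆ f.support := fun n hn h0 => hn (by
    rw [thf_coeff, h0, mul_zero])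

/-- `s d/ds` as a linear map -/
def thl : HahnSeries ℤ K →ₗ[K] HahnSeries ℤ K where
  toFun := thf K
  map_add' f g := by
    ext n
    rw [HahnSeries.coeff_add, thf_coeff, thf_coeff, thf_coeff, HahnSeries.coeff_add, mul_add]
  map_smul' c f := by
    ext n
    rw [RingHom.id_apply, HahnSeries.coeff_smul, thf_coeff, thf_coeff, HahnSeries.coeff_smul, smul_eq_mul,
      smul_eq_mul, mul_left_comm]

theorem thf_mul (f g : HahnSeries ℤ K) : thf K (f * g) = f * thf K g + g * thf K f := by
  ext n
  rw [mul_comm g, HahnSeries.coeff_add, thf_coeff, HahnSeries.coeff_mul,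
    HahnSeries.coeff_mul_right' g.isPWO_support (thf_support K g),
    HahnSeries.coeff_mul_left' f.isPWO_support (thf_support K f), Finset.mul_sum,
    ← Finset.sum_add_distrib]
  refine Finset.sum_congr rfl fun ij hij => ?_
  have h1 : ij.1 + ij.2 = n := by simpa using (Finset.mem_antidiagonal.1 hij).2.2
  rw [thf_coeff, thf_coeff, ← h1, Int.cast_add]
  ring

/-- the derivation -/
noncomputable def th : Derivation K (HahnSeries ℤ K) (HahnSeries ℤ K) :=
  Derivation.mk' (thl K) fun f g => by
    rw [smul_eq_mul, smul_eq_mul]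
    exact thf_mul K f g

theorem th_const [CharZero K] (g : HahnSeries ℤ K) (hg : th K g = 0) :
    ∃ c : K, algebraMap K (HahnSeries ℤ K) c = g := by
  refine ⟨g.coeff 0, ?_⟩
  ext n
  rw [HahnSeries.algebraMap_apply, HahnSeries.C_apply]
  by_cases hn : n = 0
  · subst hn
    rw [HahnSeries.coeff_single_same]
    rfl
  · rw [HahnSeries.coeff_single_of_ne hn]
    have h1 : (thf K g).coeff n = 0 := by
      have h2 : thf K g = 0 := hg
      rw [h2, HahnSeries.coeff_zero]
    rw [thf_coeff, mul_eq_zero] at h1
    rcases h1 with h1 | h1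
    · exact absurd (Int.cast_eq_zero.1 h1) hn
    · exact h1.symm

theorem indep_laurent [CharZero K] {d : ℕ} {y : Fin d → PowerSeries ℚ} (hy : AlgebraicIndependent ℚ y) :
    AlgebraicIndependent K
      ((HahnSeries.ofPowerSeriesAlg (A := K) ℤ K) ∘ (fun i => PowerSeries.map (algebraMap ℚ K) (y i))) :=
  (indep_map K hy).map' HahnSeries.ofPowerSeries_injective

theorem t : Pool.Agent.Helper64.RN.S_DFA.{u} := by
  intro K _ _ d
  obtain ⟨y, hy⟩ := exists_indep d
  exact ⟨HahnSeries ℤ K, inferInstance, inferInstance, th K, _, indep_laurent K hy, th_const K⟩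

end theta

end Pool.Agent.Helper13.RN.DFA
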