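import Pool.Agent.Helper36.RN.GoalsH

/-!
# Project RFn, existence part 2, packet FRL: existence of solutions of the system
-/

namespace Pool.Agent.Helper13.RN

open Set Filter Topology MeasureTheory Pool.Agent.Helper47.RFn Pool.Agent.Helper36.RN

/-- a lower bound for the principal part, in real numbers -/
theorem ell_real (n : ℕ) (ν ν' ξ : Ix n → ℝ) (A0 A θ l : Ix n → Ix n → ℝ) (N M ρ : ℝ)
    (hN : N = (n : ℝ) + 1) (hM : 1 ≤ M) (hρ : ρ = 1 / (12 * N ^ 3 * M ^ 2))
    (hl : ∀ j k, l j k = ν j * ξ k - ν k * ξ j) (hν : ∑ j, ν j ^ 2 = 1)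
    (hνξ : ∑ j, ν j * ξ j = 0)
    (hinv : ∀ a c, ∑ i, A0 a i * θ i c = if a = c then 1 else 0)
    (hA0 : ∀ a i, |A0 a i| ≤ M) (hθ : ∀ i a, |θ i a| ≤ M)
    (hν' : ∀ j, |ν' j - ν j| ≤ ρ) (hA : ∀ a i, |A a i - A0 a i| ≤ ρ) :
    1 / (16 * N ^ 5 * M ^ 2) * ∑ j, ∑ k, l j k ^ 2 ≤ ∑ a, (∑ k, A a k * ∑ j, ν' j * l j k) ^ 2 := by
  have hM0 : 0 < M := by linarith
  have hN1 : 1 ≤ N := by rw [hN]; linarith [(Nat.cast_nonneg n : (0 : ℝ) ≤ n)]
  have hN0 : 0 < N := by linarith
  have hcard : ((Finset.univ : Finset (Ix n)).card : ℝ) = N := by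
    rw [Finset.card_univ, Fintype.card_fin, hN]
    push_cast
    ring
  have hρ0 : 0 < ρ := by rw [hρ]; positivity
  have hρ1 : ρ ≤ 1 := by
    rw [hρ, div_le_one (by positivity)]
    have h1 : (1 : ℝ) ≤ N ^ 3 := one_le_pow₀ hN1
    have h2 : (1 : ℝ) ≤ M ^ 2 := one_le_pow₀ hM
    nlinarith
  -- the inverse matrix
  have hmat : (Matrix.of A0) * (Matrix.of θ) = 1 := by
    ext a c
    rw [Matrix.mul_apply, Matrix.one_apply]
    exact hinv a c
  have hmat' : (Matrix.of θ) * (Matrix.of A0) = 1 := mul_eq_one_comm.1 hmat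
  have hinv' : ∀ j i, ∑ c, θ j c * A0 c i = if j = i then 1 else 0 := by
    intro j i
    have h := congrFun (congrFun hmat' j) i
    rw [Matrix.mul_apply, Matrix.one_apply] at h
    exact h
  have h1 : ∀ j, ξ j = ∑ c, θ j c * (∑ i, A0 c i * ξ i) := by
    intro j
    have e : ∑ c, θ j c * (∑ i, A0 c i * ξ i) = ∑ i, (∑ c, θ j c * A0 c i) * ξ i := by
      simp only [Finset.mul_sum, Finset.sum_mul]
      rw [Finset.sum_comm]
      refine Finset.sum_congr rfl fun i _ => Finset.sum_congr rfl fun c _ => by ring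
    rw [e]
    simp only [hinv']
    simp
  -- `ξ` from `l`
  have hξl : ∀ k, ξ k = ∑ j, ν j * l j k := by
    intro k
    have e : ∑ j, ν j * l j k = (∑ j, ν j ^ 2) * ξ k - ν k * ∑ j, ν j * ξ j := by
      rw [Finset.sum_mul, Finset.mul_sum, ← Finset.sum_sub_distrib]
      refine Finset.sum_congr rfl fun j _ => ?_
      rw [hl]
      ring
    rw [e, hν, hνξ]
    ring
  have hν1 : ∀ j, |ν j| ≤ 1 := by
    intro j
    have h2 : ν j ^ 2 ≤ 1 := by
      rw [← hν]
      exact Finset.single_le_sum (f := fun j => ν j ^ 2) (fun j _ => sq_nonneg _)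
        (Finset.mem_univ j)
    exact abs_le_one_iff_mul_self_le_one.2 (by nlinarith)
  set r : Ix n → ℝ := fun k => ∑ j, |l j k| with hr
  have hr0 : ∀ k, 0 ≤ r k := fun k => Finset.sum_nonneg fun j _ => abs_nonneg _
  set S : ℝ := ∑ k, r k with hS
  have hS0 : 0 ≤ S := Finset.sum_nonneg fun k _ => hr0 k
  set ξ' : Ix n → ℝ := fun k => ∑ j, ν' j * l j k with hξ'
  have h2 : ∀ k, |ξ k - ξ' k| ≤ ρ * r k := by
    intro k
    have e : ξ k - ξ' k = ∑ j, -((ν' j - ν j) * l j k) := by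
      rw [hξl, hξ', ← Finset.sum_sub_distrib]
      refine Finset.sum_congr rfl fun j _ => by ring
    rw [e, hr, Finset.mul_sum]
    refine (Finset.abs_sum_le_sum_abs _ _).trans (Finset.sum_le_sum fun j _ => ?_)
    rw [abs_neg, abs_mul]
    exact mul_le_mul_of_nonneg_right (hν' j) (abs_nonneg _)
  have h3 : ∀ k, |ξ' k| ≤ 2 * r k := by
    intro k
    rw [hξ', hr, Finset.mul_sum]
    refine (Finset.abs_sum_le_sum_abs _ _).trans (Finset.sum_le_sum fun j _ => ?_)
    rw [abs_mul]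
    refine mul_le_mul_of_nonneg_right ?_ (abs_nonneg _)
    have e : ν' j = (ν' j - ν j) + ν j := by ring
    rw [e]
    refine (abs_add_le _ _).trans ?_
    linarith [hν' j, hν1 j]
  set η : Ix n → ℝ := fun a => ∑ k, A a k * ξ' k with hη
  set z : ℝ := ∑ a, |η a| with hz
  have h4 : ∀ a, |∑ i, A0 a i * ξ i| ≤ |η a| + 3 * M * ρ * S := by
    intro a
    have e : ∑ i, A0 a i * ξ i = η a + ∑ k, (A0 a k * (ξ k - ξ' k) - (A a k - A0 a k) * ξ' k) := by
      rw [hη, ← Finset.sum_add_distrib]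
      refine Finset.sum_congr rfl fun k _ => by ring
    rw [e]
    refine (abs_add_le _ _).trans (add_le_add le_rfl ?_)
    rw [hS, Finset.mul_sum]
    refine (Finset.abs_sum_le_sum_abs _ _).trans (Finset.sum_le_sum fun k _ => ?_)
    refine (abs_sub _ _).trans ?_
    rw [abs_mul, abs_mul]
    have k1 : |A0 a k| * |ξ k - ξ' k| ≤ M * (ρ * r k) :=
      mul_le_mul (hA0 a k) (h2 k) (abs_nonneg _) hM0.le
    have k2 : |A a k - A0 a k| * |ξ' k| ≤ ρ * (2 * r k) :=
      mul_le_mul (hA a k) (h3 k) (abs_nonneg _) hρ0.le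
    have k3 : ρ * (2 * r k) ≤ 2 * M * ρ * r k := by
      have : 0 ≤ ρ * r k := mul_nonneg hρ0.le (hr0 k)
      nlinarith
    nlinarith
  have h5 : ∀ j, |ξ j| ≤ M * (z + N * (3 * M * ρ * S)) := by
    intro j
    calc |ξ j| = |∑ c, θ j c * (∑ i, A0 c i * ξ i)| := by rw [← h1 j]
      _ ≤ ∑ c, |θ j c * (∑ i, A0 c i * ξ i)| := Finset.abs_sum_le_sum_abs _ _
      _ ≤ ∑ c, M * (|η c| + 3 * M * ρ * S) := by
          refine Finset.sum_le_sum fun c _ => ?_
          rw [abs_mul]
          exact mul_le_mul (hθ j c) (h4 c) (abs_nonneg _) hM0.le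
      _ = M * (z + N * (3 * M * ρ * S)) := by
          rw [← Finset.mul_sum, Finset.sum_add_distrib, ← hz, Finset.sum_const, nsmul_eq_mul, hcard]
  have h6 : S ≤ 2 * N * ∑ k, |ξ k| := by
    have e : ∀ k j, |l j k| ≤ |ξ k| + |ξ j| := by
      intro k j
      rw [hl]
      refine (abs_sub _ _).trans ?_
      rw [abs_mul, abs_mul]
      have := mul_le_mul_of_nonneg_right (hν1 j) (abs_nonneg (ξ k))
      have := mul_le_mul_of_nonneg_right (hν1 k) (abs_nonneg (ξ j))
      linarith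
    calc S ≤ ∑ k : Ix n, ∑ j : Ix n, (|ξ k| + |ξ j|) :=
          Finset.sum_le_sum fun k _ => Finset.sum_le_sum fun j _ => e k j
      _ = 2 * N * ∑ k, |ξ k| := by
          simp only [Finset.sum_add_distrib, Finset.sum_const, nsmul_eq_mul, ← Finset.mul_sum,
            hcard]
          ring
  have h7 : S ≤ 2 * N * (N * (M * (z + N * (3 * M * ρ * S)))) := by
    refine h6.trans (mul_le_mul_of_nonneg_left ?_ (by positivity))
    calc ∑ k, |ξ k| ≤ ∑ _k : Ix n, M * (z + N * (3 * M * ρ * S)) :=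
          Finset.sum_le_sum fun k _ => h5 k
      _ = N * (M * (z + N * (3 * M * ρ * S))) := by
          rw [Finset.sum_const, nsmul_eq_mul, hcard]
  have h8 : S ≤ 4 * N ^ 2 * M * z := by
    have e : 2 * N * (N * (M * (z + N * (3 * M * ρ * S)))) = 2 * N ^ 2 * M * z + S / 2 := by
      rw [hρ]
      field_simp
      ring
    rw [e] at h7
    linarith
  have h9 : ∑ j, ∑ k, l j k ^ 2 ≤ S ^ 2 := by
    have k1 : ∀ j k, |l j k| ≤ S := by
      intro j k
      calc |l j k| ≤ r k := Finset.single_le_sum (f := fun j => |l j k|)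
            (fun j _ => abs_nonneg _) (Finset.mem_univ j)
        _ ≤ S := Finset.single_le_sum (f := r) (fun k _ => hr0 k) (Finset.mem_univ k)
    calc ∑ j, ∑ k, l j k ^ 2 ≤ ∑ j, ∑ k, |l j k| * S := by
          refine Finset.sum_le_sum fun j _ => Finset.sum_le_sum fun k _ => ?_
          rw [← sq_abs, sq]
          exact mul_le_mul_of_nonneg_left (k1 j k) (abs_nonneg _)
      _ = ∑ k, ∑ j, |l j k| * S := Finset.sum_comm
      _ = S ^ 2 := by
          simp only [← Finset.sum_mul]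
          rw [sq]
  have h10 : z ^ 2 ≤ N * ∑ a, η a ^ 2 := by
    have h := sq_sum_le_card_mul_sum_sq (s := (Finset.univ : Finset (Ix n))) (f := fun a => |η a|)
    rw [hcard] at h
    simpa only [sq_abs] using h
  have hz0 : 0 ≤ z := Finset.sum_nonneg fun a _ => abs_nonneg _
  have h11 : ∑ j, ∑ k, l j k ^ 2 ≤ 16 * N ^ 5 * M ^ 2 * ∑ a, η a ^ 2 := by
    calc ∑ j, ∑ k, l j k ^ 2 ≤ S ^ 2 := h9
      _ ≤ (4 * N ^ 2 * M * z) ^ 2 := pow_le_pow_left₀ hS0 h8 2
      _ = 16 * N ^ 4 * M ^ 2 * z ^ 2 := by ring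
      _ ≤ 16 * N ^ 4 * M ^ 2 * (N * ∑ a, η a ^ 2) :=
          mul_le_mul_of_nonneg_left h10 (by positivity)
      _ = 16 * N ^ 5 * M ^ 2 * ∑ a, η a ^ 2 := by ring
  rw [one_div, inv_mul_le_iff₀ (by positivity)]
  exact h11

variable {n : ℕ}

theorem vw_anti (v : VI n → XS n) (i c d : Ix n) : vw v i c d = - vw v i d c := by
  unfold vw
  rcases lt_trichotomy c d with h | h | h
  · rw [dif_pos h, dif_neg h.asymm, dif_pos h, neg_neg]
  · subst h
    rw [dif_neg (lt_irrefl c), dif_neg (lt_irrefl c), neg_zero]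
  · rw [dif_neg h.asymm, dif_pos h, dif_pos h]

theorem eq_zero_of_eq_neg {f : XS n} (h : f = -f) : f = 0 := by
  apply XS_ext
  intro x
  have h1 : f.1 x = (-f).1 x := by rw [← h]
  rw [neg_val] at h1
  rw [zero_val]
  linarith

theorem ell_main (D : QLD n (UI n) (VI n))
    (hD : ∀ (u : UI n → XS n) (p q : KK n), MvPolynomial.aeval u (D.α p q) =
      un u p.1 * TC.al (uA u) p.2 q.2 * un u q.1)
    (A0 θ0 : Ix n → Ix n → XS n) (u0 : UI n → XS n) (hu0A : uA u0 = A0) (hu0n : un u0 = nu)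
    (hInv : ∀ a b, ∑ i, A0 a i * θ0 i b = if a = b then 1 else 0) :
    ∃ lam ρ : ℝ, 0 < lam ∧ 0 < ρ ∧ D.Ell u0 lam ρ := by
  have hb : ∃ M : ℝ, 1 ≤ M ∧ (∀ i c, ∀ x, |(θ0 i c).1 x| ≤ M) ∧ ∀ i c, ∀ x, |(A0 i c).1 x| ≤ M := by
    choose C hC using fun p : Ix n × Ix n => bdd_val (θ0 p.1 p.2)
    choose C' hC' using fun p : Ix n × Ix n => bdd_val (A0 p.1 p.2)
    have p0 : 0 ≤ ∑ p, |C p| := Finset.sum_nonneg fun p _ => abs_nonneg _
    have p0' : 0 ≤ ∑ p, |C' p| := Finset.sum_nonneg fun p _ => abs_nonneg _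
    refine ⟨1 + ∑ p, |C p| + ∑ p, |C' p|, by linarith, fun i c x => ?_, fun i c x => ?_⟩
    · have h1 := hC (i, c) x
      have h2 : |C (i, c)| ≤ ∑ p, |C p| :=
        Finset.single_le_sum (f := fun p : Ix n × Ix n => |C p|)
          (fun p _ => abs_nonneg _) (Finset.mem_univ (i, c))
      have h3 := le_abs_self (C (i, c))
      simp only at h1
      linarith
    · have h1 := hC' (i, c) x
      have h2 : |C' (i, c)| ≤ ∑ p, |C' p| :=
        Finset.single_le_sum (f := fun p : Ix n × Ix n => |C' p|)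
          (fun p _ => abs_nonneg _) (Finset.mem_univ (i, c))
      have h3 := le_abs_self (C' (i, c))
      simp only at h1
      linarith
  obtain ⟨M, hM1, hMθ, hMA⟩ := hb
  have hM0 : 0 < M := by linarith
  set N : ℝ := (n : ℝ) + 1 with hN
  have hN0 : 0 < N := by positivity
  refine ⟨1 / (16 * N ^ 5 * M ^ 2), 1 / (12 * N ^ 3 * M ^ 2), by positivity, by positivity, ?_⟩
  intro u hu f x
  have hle := ell_real n (fun j => (nu j).1 x) (fun j => (un u j).1 x) (fun k => (Ee k f).1 x)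
    (fun a i => (A0 a i).1 x) (fun a i => (uA u a i).1 x) (fun i a => (θ0 i a).1 x)
    (fun j k => (Ld (j, k) f).1 x) N M (1 / (12 * N ^ 3 * M ^ 2)) hN hM1 rfl
    (fun j k => by
      simp only [Ld_eq, sub_val, mul_val])
    (by
      have h := congrArg (fun g : XS n => g.1 x) (nu_sq (n := n))
      simp only [sum_val, one_val] at h
      rw [← h]
      refine Finset.sum_congr rfl fun j _ => ?_
      rw [pow_two, pow_two, mul_val])
    (by
      have h := congrArg (fun g : XS n => g.1 x) (nu_Ee f)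
      simp only [sum_val, zero_val, mul_val] at h
      exact h)
    (fun a c => by
      have h := congrArg (fun g : XS n => g.1 x) (hInv a c)
      simp only [sum_val, mul_val] at h
      rw [h]
      by_cases hac : a = c
      · rw [if_pos hac, if_pos hac, one_val]
      · rw [if_neg hac, if_neg hac, zero_val])
    (fun a i => hMA a i x) (fun i a => hMθ i a x)
    (fun j => by
      have h := hu (Sum.inr (Sum.inr (Sum.inr j))) x
      have e : u0 (Sum.inr (Sum.inr (Sum.inr j))) = nu j := congrFun hu0n j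
      rw [e] at h
      exact h)
    (fun a i => by
      have h := hu (Sum.inl (a, i)) x
      have e : u0 (Sum.inl (a, i)) = A0 a i := congrFun (congrFun hu0A a) i
      rw [e] at h
      exact h)
  have e1 : ∑ p : KK n, (Ld p f).1 x ^ 2 = ∑ j, ∑ k, (Ld (j, k) f).1 x ^ 2 :=
    Fintype.sum_prod_type _
  have e2 : ∑ p : KK n, ∑ q : KK n, ((MvPolynomial.aeval u (D.α p q) : XS n)).1 x * (Ld p f).1 x *
      (Ld q f).1 x = ∑ a, (∑ k, (uA u a k).1 x * ∑ j, (un u j).1 x * (Ld (j, k) f).1 x) ^ 2 := by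
    have e3 : ∀ a, ∑ k, (uA u a k).1 x * ∑ j, (un u j).1 x * (Ld (j, k) f).1 x =
        ∑ p : KK n, (un u p.1).1 x * (uA u a p.2).1 x * (Ld p f).1 x := by
      intro a
      rw [Fintype.sum_prod_type, Finset.sum_comm]
      refine Finset.sum_congr rfl fun k _ => ?_
      rw [Finset.mul_sum]
      refine Finset.sum_congr rfl fun j _ => by ring
    simp only [e3, sq, Finset.sum_mul_sum]
    symm
    rw [Finset.sum_comm]
    refine Finset.sum_congr rfl fun p _ => ?_
    rw [Finset.sum_comm]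
    refine Finset.sum_congr rfl fun q _ => ?_
    symm
    rw [hD, mul_val, mul_val, TC.al, sum_val, Finset.mul_sum, Finset.sum_mul, Finset.sum_mul,
      Finset.sum_mul]
    refine Finset.sum_congr rfl fun a _ => ?_
    rw [mul_val]
    ring
  rw [e1, e2]
  exact hle

theorem frl : G_FRL := by
  intro hQL hINS hANT hCDA hEN0 n hn A0 θ0 O0 w0 hInv hw0
  obtain ⟨D, hD1, hD2, hD3, hD4, hD5, hD6⟩ := hINS n
  set u0 : UI n → XS n := Sum.elim (fun p => A0 p.1 p.2) (Sum.elim (fun p => θ0 p.1 p.2)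
    (Sum.elim (fun p => O0 p.1 p.2) nu)) with hu0
  set v0 : VI n → XS n := fun j => w0 j.1 j.2.1.1 j.2.1.2 with hv0
  obtain ⟨lam, ρ, hlam, hρ, hEll⟩ := ell_main D hD6 A0 θ0 u0 rfl rfl hInv
  obtain ⟨τ, hτ, u, v, hu0', hv0', hu, hv⟩ := hQL n hn (UI n) (VI n) D u0 v0 lam ρ hlam hρ hEll
  obtain ⟨cd_const, cd_add, cd_sub, cd_mul, cd_neg, cd_smul, cd_Ld, cd_Ee, cd_sum, cd_congr', cd_congr,
    cd_cc, cc_const, _⟩ := hCDA n τ
  -- the radial vector is constant
  have hn' : ∀ t ∈ Icc 0 τ, un (u t) = nu := by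
    have h := hEN0 n (Ix n) τ (fun i t => un (u t) i - nu i) (fun i t => 0 - 0)
      (fun _ _ _ => 0)
      (fun i => by
        refine cd_sub _ _ _ _ ?_ (cd_const (nu i))
        have h := hu (Sum.inr (Sum.inr (Sum.inr i)))
        simp only [hD4] at h
        exact h)
      (fun _ _ => cc_const 0)
      (fun t _ i => by simp)
      (fun i => by
        have e : un (u 0) i = nu i := by rw [hu0']; rfl
        rw [e, sub_self])
    intro t ht
    funext i
    exact sub_eq_zero.1 (h t ht i)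
  have hev : ∀ t ∈ Icc 0 τ, (ev (un (u t)) : Ix n → _) = Ee := by
    intro t ht
    rw [hn' t ht]
    rfl
  refine ⟨τ, hτ, fun t => uA (u t), fun t => uth (u t), fun t => uO (u t), fun t => vw (v t),
    ⟨fun t i c d => vw_anti _ _ _ _, fun a i => ?_, fun i a => ?_, fun a b => ?_,
      fun i c d => ?_⟩, ?_, ?_, ?_, ?_⟩
  · refine cd_congr' _ _ _ (hu (Sum.inl (a, i))) fun t ht => ?_
    rw [hD1, hev t ht, hn' t ht]
  · refine cd_congr' _ _ _ (hu (Sum.inr (Sum.inl (i, a)))) fun t ht => ?_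
    rw [hD2, hev t ht, hn' t ht]
  · refine cd_congr' _ _ _ (hu (Sum.inr (Sum.inr (Sum.inl (a, b))))) fun t ht => ?_
    rw [hD3, hev t ht]
  · have hsw : ∀ (t : ℝ) (i c d : Ix n), TC.sw Ee nu (uA (u t)) (uth (u t)) (vw (v t)) i c d =
        - TC.sw Ee nu (uA (u t)) (uth (u t)) (vw (v t)) i d c := fun t =>
      (hANT n (XS n) Ee nu (uA (u t)) (uth (u t)) (vw (v t))
        (fun i c d => vw_anti _ _ _ _)).2.2.2.2.2.2.2.2.2.2.1
    have key : ∀ (c d : Ix n) (h : c < d), CD τ (fun t => v t (i, ⟨(c, d), h⟩))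
        (fun t => TC.sw Ee nu (uA (u t)) (uth (u t)) (vw (v t)) i c d) := by
      intro c d h
      refine cd_congr' _ _ _ (hv (i, ⟨(c, d), h⟩)) fun t ht => ?_
      rw [hD5, hev t ht, hn' t ht]
    rcases lt_trichotomy c d with h | h | h
    · have e : (fun t => vw (v t) i c d) = fun t => v t (i, ⟨(c, d), h⟩) := by
        funext t
        unfold vw
        rw [dif_pos h]
      rw [e]
      exact key c d h
    · subst h
      have e : (fun t => vw (v t) i c c) = fun _ => 0 := by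
        funext t
        exact eq_zero_of_eq_neg (vw_anti _ _ _ _)
      rw [e]
      refine cd_congr' _ _ _ (cd_const 0) fun t _ => ?_
      exact (eq_zero_of_eq_neg (hsw t i c c)).symm
    · have e : (fun t => vw (v t) i c d) = fun t => - v t (i, ⟨(d, c), h⟩) := by
        funext t
        unfold vw
        rw [dif_neg h.asymm, dif_pos h]
      rw [e]
      refine cd_congr' _ _ _ (cd_neg _ _ (key d c h)) fun t _ => ?_
      exact (hsw t i c d).symm
  · funext a i
    show uA (u 0) a i = A0 a i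
    rw [hu0']
    rfl
  · funext i a
    show uth (u 0) i a = θ0 i a
    rw [hu0']
    rfl
  · funext a b
    show uO (u 0) a b = O0 a b
    rw [hu0']
    rfl
  · funext i c d
    show vw (v 0) i c d = w0 i c d
    rw [hv0']
    unfold vw
    rcases lt_trichotomy c d with h | h | h
    · rw [dif_pos h]
    · subst h
      rw [dif_neg (lt_irrefl c), dif_neg (lt_irrefl c)]
      exact (eq_zero_of_eq_neg (hw0 i c c)).symm
    · rw [dif_neg h.asymm, dif_pos h]
      exact (hw0 i c d).symm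

end Pool.Agent.Helper13.RN
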